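import Pool.Agent.Helper76.TB.Goals
import Pool.Agent.Helper9.BFT.KT

/-!
# Project TB (MP_74f661_nt): the packet LOCAL
-/

set_option autoImplicit false

open Finset
open Pool.Agent.Helper90.Twin (Ps XX yy avgI mem_Ps Ps_mono)
open Pool.Agent.Helper60.BFT
open Pool.Agent.Helper9.BFT (gg prod_XA)

namespace Pool.Agent.Helper35.TB

/-- the substitution `x ↦ (6 x + 5 + 6 t (p - 1)) % p` -/
theorem sum_gg {p : ℕ} (hp : p.Prime) (h5 : 5 ≤ p) (I : Finset ℕ) (t : ℕ) :
    ∑ c ∈ range p, gg I t p c = ∑ x ∈ range p, ∏ i ∈ I, (1 - yy p (x + i)) := by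
  have hp0 : 0 < p := by omega
  have hmod : ∀ x i : ℕ, 6 * (t + i) + (6 * x + 5 + 6 * t * (p - 1)) % p ≡ 6 * (x + i) + 5 [MOD p] := by
    intro x i
    have h1 : 6 * (t + i) + (6 * x + 5 + 6 * t * (p - 1)) % p ≡
        6 * (t + i) + (6 * x + 5 + 6 * t * (p - 1)) [MOD p] :=
      Nat.ModEq.add_left _ (Nat.mod_modEq _ _)
    refine h1.trans ?_
    have h2 : 6 * (t + i) + (6 * x + 5 + 6 * t * (p - 1)) = 6 * (x + i) + 5 + p * (6 * t) := by
      obtain ⟨p', rfl⟩ : ∃ p', p = p' + 1 := ⟨p - 1, by omega⟩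
      rw [Nat.add_sub_cancel]
      ring
    rw [h2]
    have h3 : 6 * (x + i) + 5 + p * (6 * t) ≡ 6 * (x + i) + 5 + 0 [MOD p] :=
      Nat.ModEq.add_left _ (Nat.modEq_zero_iff_dvd.mpr (dvd_mul_right _ _))
    exact h3
  have hy : ∀ x i : ℕ, yA (fun _ => (6 * x + 5 + 6 * t * (p - 1)) % p) p (t + i) =
      yy p (x + i) := by
    intro x i
    have h1 := hmod x i
    have h2 : p ∣ 6 * (t + i) + (6 * x + 5 + 6 * t * (p - 1)) % p ↔ p ∣ 6 * (x + i) + 5 := by
      rw [← Nat.modEq_zero_iff_dvd, ← Nat.modEq_zero_iff_dvd]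
      exact ⟨fun h => h1.symm.trans h, fun h => h1.trans h⟩
    have h3 : p ∣ 6 * (t + i) + (6 * x + 5 + 6 * t * (p - 1)) % p + 2 ↔
        p ∣ 6 * (x + i) + 7 := by
      have h4 : 6 * (x + i) + 7 = 6 * (x + i) + 5 + 2 := by ring
      rw [h4, ← Nat.modEq_zero_iff_dvd, ← Nat.modEq_zero_iff_dvd]
      have h5 := Nat.ModEq.add_right 2 h1
      exact ⟨fun h => h5.symm.trans h, fun h => h5.trans h⟩
    have h6 : bad (fun _ => (6 * x + 5 + 6 * t * (p - 1)) % p) p (t + i) ↔
        Pool.Agent.Helper90.Twin.bad p (x + i) := by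
      unfold bad Pool.Agent.Helper90.Twin.bad
      rw [h2, h3]
    unfold yA yy
    by_cases h : Pool.Agent.Helper90.Twin.bad p (x + i)
    · rw [if_pos h, if_pos (h6.mpr h)]
    · rw [if_neg h, if_neg (fun hh => h (h6.mp hh))]
  have hinj : Set.InjOn (fun x => (6 * x + 5 + 6 * t * (p - 1)) % p) (range p : Set ℕ) := by
    intro x hx x' hx' h
    have hx1 : x < p := by simpa using hx
    have hx2 : x' < p := by simpa using hx'
    have h1 : 6 * x + 5 + 6 * t * (p - 1) ≡ 6 * x' + 5 + 6 * t * (p - 1) [MOD p] := h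
    have h2 : 6 * x ≡ 6 * x' [MOD p] := by
      have h3 := Nat.ModEq.add_right_cancel' _ h1
      exact Nat.ModEq.add_right_cancel' _ h3
    have hcop : Nat.Coprime p 6 := by
      rw [hp.coprime_iff_not_dvd]
      intro hd
      have h3 : p ∣ 2 * 3 := hd
      rcases (hp.dvd_mul).mp h3 with h | h
      · have := Nat.le_of_dvd (by norm_num) h
        omega
      · have := Nat.le_of_dvd (by norm_num) h
        omega
    have h3 : x ≡ x' [MOD p] := Nat.ModEq.cancel_left_of_coprime hcop h2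
    have h4 : x % p = x' % p := h3
    rwa [Nat.mod_eq_of_lt hx1, Nat.mod_eq_of_lt hx2] at h4
  have himg : (range p).image (fun x => (6 * x + 5 + 6 * t * (p - 1)) % p) = range p := by
    apply Finset.eq_of_subset_of_card_le
    · intro y hy'
      rw [Finset.mem_image] at hy'
      obtain ⟨x, _, rfl⟩ := hy'
      exact Finset.mem_range.mpr (Nat.mod_lt _ hp0)
    · rw [Finset.card_image_of_injOn hinj]
  calc ∑ c ∈ range p, gg I t p c
      = ∑ c ∈ (range p).image (fun x => (6 * x + 5 + 6 * t * (p - 1)) % p), gg I t p c := by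
        rw [himg]
    _ = ∑ x ∈ range p, gg I t p ((6 * x + 5 + 6 * t * (p - 1)) % p) :=
        Finset.sum_image hinj
    _ = _ := by
        refine Finset.sum_congr rfl fun x _ => ?_
        unfold gg
        refine Finset.prod_congr rfl fun i _ => ?_
        rw [hy]

theorem loc : Pool.Agent.Helper76.TB.LOCALG := by
  intro r Z hrZ I t A
  simp only [prod_XA]
  rw [Av_prod (Ps Z) (lg r Z) (lg_nodup r Z) ?_ (gg I t) A]
  · have h1 : (lg r Z).toFinset = Ps Z \ Ps r := by
      unfold lg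
      rw [Finset.toList_toFinset]
    rw [h1, Finset.sdiff_sdiff_eq_self (Ps_mono hrZ), mul_comm]
    congr 1
    unfold avgI
    rw [(((Pool.Agent.Helper90.Twin.sieveSys Z).mono Finset.sdiff_subset).avg_prod I)]
    apply Finset.prod_congr rfl
    intro p hp
    rw [Finset.mem_sdiff, mem_Ps, mem_Ps] at hp
    rw [sum_gg hp.1.2.2 hp.1.1 I t]
  · intro q hq
    have := mem_lg.1 hq
    rw [mem_Ps]
    exact ⟨this.1, this.2.1, this.2.2.1⟩

end Pool.Agent.Helper35.TB
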