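import Pool.Agent.Helper22.TB.Goals

/-!
# Project TB (MP_74f661_nt): the packet ABL
-/

set_option autoImplicit false

open Finset Filter Topology
open Pool.Agent.Helper90.Twin (Ps Gz)
open Pool.Agent.Helper22.TB

open scoped Classical

namespace Pool.Agent.Helper35.TB

theorem summ_bd (f : ℕ → ℝ) (r : ℝ) (h0 : 0 ≤ r) (h1 : r < 1) (hf : Bd f) :
    Summable (fun g : ℕ => (-1 : ℝ) ^ (g + 1) * f (g + 1) * r ^ (g + 1)) := by
  obtain ⟨B, hB⟩ := hf
  have hs : Summable (fun g : ℕ => B * r * r ^ g) :=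
    (summable_geometric_of_lt_one h0 h1).mul_left (B * r)
  refine Summable.of_norm_bounded hs ?_
  intro g
  rw [Real.norm_eq_abs, abs_mul, abs_mul, abs_pow, abs_neg, abs_one, one_pow, one_mul, abs_pow,
    abs_of_nonneg h0, pow_succ]
  calc |f (g + 1)| * (r ^ g * r) ≤ B * (r ^ g * r) :=
        mul_le_mul_of_nonneg_right (hB _) (by positivity)
    _ = B * r * r ^ g := by ring

theorem gABL : G_ABL := by
  intro ι s c f r h0 h1 hf
  have e1 : ∀ g : ℕ, (-1 : ℝ) ^ (g + 1) * (∑ i ∈ s, c i * f i (g + 1)) * r ^ (g + 1) =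
      ∑ i ∈ s, c i * ((-1 : ℝ) ^ (g + 1) * f i (g + 1) * r ^ (g + 1)) := by
    intro g
    rw [Finset.mul_sum, Finset.sum_mul]
    refine Finset.sum_congr rfl fun i _ => ?_
    ring
  have e2 : ∑' g : ℕ, (-1 : ℝ) ^ (g + 1) * (∑ i ∈ s, c i * f i (g + 1)) * r ^ (g + 1) =
      ∑ i ∈ s, c i * ∑' g : ℕ, (-1 : ℝ) ^ (g + 1) * f i (g + 1) * r ^ (g + 1) := by
    simp only [e1]
    rw [Summable.tsum_finsetSum]
    · refine Finset.sum_congr rfl fun i _ => ?_
      rw [tsum_mul_left]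
    · intro i hi
      exact (summ_bd (f i) r h0 h1 (hf i hi)).mul_left (c i)
  unfold Pool.Agent.Helper22.TB.Ab
  rw [e2]
  simp only [mul_add, Finset.sum_add_distrib]
  congr 1
  rw [Finset.mul_sum]
  refine Finset.sum_congr rfl fun i _ => ?_
  ring

end Pool.Agent.Helper35.TB
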