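import Pool.Agent.Helper22.TB.Goals

/-!
# Project TB (MP_74f661_nt): the packet DYAD
-/

set_option autoImplicit false

open Finset Filter Topology
open Pool.Agent.Helper90.Twin (Ps Gz)
open Pool.Agent.Helper22.TB

open scoped Classical

namespace Pool.Agent.Helper35.TB

theorem smo_mul_rou (y : ℝ) (q : ℕ) (hq : Squarefree q) : rou y q * smo y q = q := by
  have h0 := Nat.prod_primeFactors_of_squarefree hq
  have h1 : q.primeFactors.filter (fun p : ℕ => y < (p : ℝ)) =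
      q.primeFactors.filter (fun p : ℕ => ¬ (p : ℝ) ≤ y) := by
    apply Finset.filter_congr
    intro p _
    exact not_le.symm
  unfold rou smo
  rw [h1, mul_comm, Finset.prod_filter_mul_prod_filter_not, h0]

theorem prime_dvd_smo (y : ℝ) (q p : ℕ) (hp : p.Prime) (h : p ∣ smo y q) : (p : ℝ) ≤ y := by
  unfold smo at h
  obtain ⟨p', h1, h2⟩ := (Prime.dvd_finsetProd_iff hp.prime _).mp h
  rw [Finset.mem_filter] at h1
  have h3 : p = p' := (Nat.prime_dvd_prime_iff_eq hp (Nat.prime_of_mem_primeFactors h1.1)).mp h2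
  rw [h3]
  exact h1.2

theorem prime_dvd_rou (y : ℝ) (q p : ℕ) (hp : p.Prime) (h : p ∣ rou y q) : y < (p : ℝ) := by
  unfold rou at h
  obtain ⟨p', h1, h2⟩ := (Prime.dvd_finsetProd_iff hp.prime _).mp h
  rw [Finset.mem_filter] at h1
  have h3 : p = p' := (Nat.prime_dvd_prime_iff_eq hp (Nat.prime_of_mem_primeFactors h1.1)).mp h2
  rw [h3]
  exact h1.2

theorem SF6.of_dvd {q d : ℕ} (hq : SF6 q) (h : d ∣ q) : SF6 d :=
  ⟨hq.1.squarefree_of_dvd h, Nat.Coprime.coprime_dvd_left h hq.2⟩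

theorem gq_nonneg (q : ℕ) : 0 ≤ gq q := by
  unfold gq
  apply Finset.prod_nonneg
  intro p hp
  have h := (Nat.prime_of_mem_primeFactors hp).two_le
  have h2 : (2 : ℝ) ≤ p := by exact_mod_cast h
  apply div_nonneg (by norm_num)
  linarith

theorem CQ_nonneg (q : ℕ) : 0 ≤ CQ q := by
  unfold CQ
  apply Finset.prod_nonneg
  intro p _
  positivity

theorem gDYAD : G_DYAD := by
  rintro hT ⟨C1, Q1, hC1, h1⟩ ⟨C2, Q2, hC2, h2⟩ ⟨C3, hC3, h3⟩
  refine ⟨C1 + C2 * C3, max (max Q1 Q2) 3, by positivity, ?_⟩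
  intro Q hQ r hr0 hr1
  have hQ1 : Q1 ≤ Q := le_trans (le_trans (le_max_left _ _) (le_max_left _ _)) hQ
  have hQ2 : Q2 ≤ Q := le_trans (le_trans (le_max_right _ _) (le_max_left _ _)) hQ
  have hQ3 : 3 ≤ Q := le_trans (le_max_right _ _) hQ
  have hQr : (3 : ℝ) ≤ Q := by exact_mod_cast hQ3
  have hlog : 1 ≤ Real.log Q := by
    rw [Real.le_log_iff_exp_le (by linarith)]
    have := Real.exp_one_lt_d9
    linarith
  have hm : 0 ≤ min 1 (2 * (Q : ℝ) * (1 - r)) := by
    apply le_min zero_le_one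
    have : 0 ≤ 1 - r := by linarith
    positivity
  set y := yQ Q with hy
  set S := (Ioc Q (2 * Q)).filter SF6 with hS
  rw [← Finset.sum_filter_add_sum_filter_not S
    (fun q => (Q : ℝ) ^ (1 / 4 : ℝ) < (smo y q : ℝ))]
  -- the part with a large smooth part
  have hA : ∑ q ∈ S.filter (fun q => (Q : ℝ) ^ (1 / 4 : ℝ) < (smo y q : ℝ)), Ab r (sq q) ≤
      C1 * Real.log Q * min 1 (2 * (Q : ℝ) * (1 - r)) := by
    have e1 : ∑ q ∈ S.filter (fun q => (Q : ℝ) ^ (1 / 4 : ℝ) < (smo y q : ℝ)), Ab r (sq q) ≤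
        ∑ q ∈ S.filter (fun q => (Q : ℝ) ^ (1 / 4 : ℝ) < (smo y q : ℝ)),
          CQ q * min 1 (2 * (Q : ℝ) * (1 - r)) := by
      apply Finset.sum_le_sum
      intro q hq
      rw [Finset.mem_filter, hS, Finset.mem_filter, Finset.mem_Ioc] at hq
      refine le_trans (hT q r hq.1.2 hr0 hr1).2 ?_
      apply mul_le_mul_of_nonneg_left _ (CQ_nonneg q)
      apply min_le_min le_rfl
      have e2 : (q : ℝ) ≤ 2 * Q := by exact_mod_cast hq.1.1.2
      apply mul_le_mul_of_nonneg_right e2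
      linarith
    refine le_trans e1 ?_
    rw [← Finset.sum_mul]
    apply mul_le_mul_of_nonneg_right _ hm
    have e3 : S.filter (fun q => (Q : ℝ) ^ (1 / 4 : ℝ) < (smo y q : ℝ)) =
        (Ioc Q (2 * Q)).filter
          (fun q => SF6 q ∧ (Q : ℝ) ^ (1 / 4 : ℝ) < (smo (yQ Q) q : ℝ)) := by
      rw [hS, Finset.filter_filter]
    rw [e3]
    exact h1 Q hQ1
  -- the part with a small smooth part
  have hB : ∑ q ∈ S.filter (fun q => ¬ (Q : ℝ) ^ (1 / 4 : ℝ) < (smo y q : ℝ)), Ab r (sq q) ≤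
      C2 * (Real.log Q) ^ (-(3 / 20) : ℝ) * (C3 * Real.log Q ^ 2) *
        min 1 (2 * (Q : ℝ) * (1 - r)) := by
    set B := S.filter (fun q => ¬ (Q : ℝ) ^ (1 / 4 : ℝ) < (smo y q : ℝ)) with hBdef
    set T := ((Icc 1 Q).filter SF6).filter (fun s : ℕ => (s : ℝ) ≤ (Q : ℝ) ^ (1 / 4 : ℝ) ∧
      ∀ p, p.Prime → p ∣ s → (p : ℝ) ≤ y) with hTdef
    have hmap : ∀ q ∈ B, smo y q ∈ T := by
      intro q hq
      rw [hBdef, Finset.mem_filter, hS, Finset.mem_filter, Finset.mem_Ioc] at hq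
      obtain ⟨⟨hq1, hq2⟩, hq3⟩ := hq
      have e1 := smo_mul_rou y q hq2.1
      have e2 : SF6 (smo y q) := SF6.of_dvd hq2 ⟨rou y q, by rw [mul_comm]; exact e1.symm⟩
      have e3 : smo y q ≠ 0 := e2.1.ne_zero
      rw [hTdef, Finset.mem_filter, Finset.mem_filter, Finset.mem_Icc]
      refine ⟨⟨⟨Nat.pos_of_ne_zero e3, ?_⟩, e2⟩, not_lt.mp hq3,
        fun p hp hps => prime_dvd_smo y q p hp hps⟩
      have e4 : (smo y q : ℝ) ≤ Q := by
        refine le_trans (not_lt.mp hq3) ?_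
        calc (Q : ℝ) ^ (1 / 4 : ℝ) ≤ (Q : ℝ) ^ (1 : ℝ) :=
              Real.rpow_le_rpow_of_exponent_le (by linarith) (by norm_num)
          _ = Q := Real.rpow_one _
      exact_mod_cast e4
    rw [← Finset.sum_fiberwise_of_maps_to hmap]
    have hfib : ∀ s ∈ T, ∑ q ∈ B.filter (fun q => smo y q = s), Ab r (sq q) ≤
        C2 * (Real.log Q) ^ (-(3 / 20) : ℝ) * (gq s * (s / Nat.totient s)) *
          min 1 (2 * (Q : ℝ) * (1 - r)) := by
      intro s hs
      rw [hTdef, Finset.mem_filter, Finset.mem_filter, Finset.mem_Icc] at hs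
      obtain ⟨⟨⟨hs1, hs2⟩, hs3⟩, hs4, hs5⟩ := hs
      refine le_trans ?_ (h2 Q hQ2 s r hs3 hs4 hs5 hr0 hr1)
      set XX := (Ioc (Q / s) (2 * Q / s)).filter
          (fun x : ℕ => SF6 x ∧ ∀ p, p.Prime → p ∣ x → yQ Q < p) with hX
      have hinj : Set.InjOn (fun x : ℕ => x * s) (XX : Set ℕ) := by
        intro a _ b _ hab
        exact Nat.eq_of_mul_eq_mul_right (by omega) hab
      have e0 : ∑ x ∈ XX, Ab r (sq (x * s)) = ∑ q ∈ XX.image (fun x => x * s), Ab r (sq q) := by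
        rw [Finset.sum_image hinj]
      rw [e0]
      apply Finset.sum_le_sum_of_subset_of_nonneg
      · intro q hq
        rw [Finset.mem_filter, hBdef, Finset.mem_filter, hS, Finset.mem_filter,
          Finset.mem_Ioc] at hq
        obtain ⟨⟨⟨⟨hq1, hq1'⟩, hq2⟩, hq3⟩, hq4⟩ := hq
        have e1 := smo_mul_rou y q hq2.1
        rw [hq4] at e1
        rw [Finset.mem_image]
        refine ⟨rou y q, ?_, e1⟩
        rw [hX, Finset.mem_filter, Finset.mem_Ioc]
        refine ⟨⟨?_, ?_⟩, SF6.of_dvd hq2 ⟨s, e1.symm⟩, fun p hp hpx => prime_dvd_rou y q p hp hpx⟩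
        · rw [Nat.div_lt_iff_lt_mul (by omega), e1]
          exact hq1
        · rw [Nat.le_div_iff_mul_le (by omega), e1]
          exact hq1'
      · intro q hq _
        rw [Finset.mem_image] at hq
        obtain ⟨x, hx, rfl⟩ := hq
        rw [hX, Finset.mem_filter] at hx
        have hcop : Nat.Coprime x s := by
          by_contra hc
          rw [Nat.Prime.not_coprime_iff_dvd] at hc
          obtain ⟨p, hp, hp1, hp2⟩ := hc
          have := hx.2.2 p hp hp1
          have := hs5 p hp hp2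
          linarith
        have hsf : SF6 (x * s) := by
          refine ⟨(Nat.squarefree_mul hcop).mpr ⟨hx.2.1.1, hs3.1⟩, ?_⟩
          exact Nat.Coprime.mul_left hx.2.1.2 hs3.2
        exact (hT (x * s) r hsf hr0 hr1).1
    refine le_trans (Finset.sum_le_sum hfib) ?_
    have e5 : ∑ s ∈ T, C2 * (Real.log Q) ^ (-(3 / 20) : ℝ) * (gq s * (s / Nat.totient s)) *
          min 1 (2 * (Q : ℝ) * (1 - r)) = C2 * (Real.log Q) ^ (-(3 / 20) : ℝ) *
          (∑ s ∈ T, gq s * (s / Nat.totient s)) * min 1 (2 * (Q : ℝ) * (1 - r)) := by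
      rw [Finset.mul_sum, Finset.sum_mul]
    rw [e5]
    apply mul_le_mul_of_nonneg_right _ hm
    apply mul_le_mul_of_nonneg_left
    · refine le_trans ?_ (h3 Q hQ3)
      apply Finset.sum_le_sum_of_subset_of_nonneg
      · rw [hTdef]
        exact Finset.filter_subset _ _
      · intro s _ _
        exact mul_nonneg (gq_nonneg s) (by positivity)
    · have : 0 ≤ Real.log Q := by linarith
      positivity
  have hl0 : 0 < Real.log Q := by linarith
  have f1 : Real.log Q ≤ Real.log Q ^ (19 / 10 : ℝ) := by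
    calc Real.log Q = Real.log Q ^ (1 : ℝ) := (Real.rpow_one _).symm
      _ ≤ _ := Real.rpow_le_rpow_of_exponent_le hlog (by norm_num)
  have f2 : (Real.log Q) ^ (-(3 / 20) : ℝ) * Real.log Q ^ 2 ≤ Real.log Q ^ (19 / 10 : ℝ) := by
    rw [← Real.rpow_natCast, ← Real.rpow_add hl0]
    apply Real.rpow_le_rpow_of_exponent_le hlog
    norm_num
  calc _ ≤ C1 * Real.log Q * min 1 (2 * (Q : ℝ) * (1 - r)) +
        C2 * (Real.log Q) ^ (-(3 / 20) : ℝ) * (C3 * Real.log Q ^ 2) *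
        min 1 (2 * (Q : ℝ) * (1 - r)) := add_le_add hA hB
    _ = C1 * (Real.log Q * min 1 (2 * (Q : ℝ) * (1 - r))) +
        C2 * C3 * (((Real.log Q) ^ (-(3 / 20) : ℝ) * Real.log Q ^ 2) *
        min 1 (2 * (Q : ℝ) * (1 - r))) := by ring
    _ ≤ C1 * (Real.log Q ^ (19 / 10 : ℝ) * min 1 (2 * (Q : ℝ) * (1 - r))) +
        C2 * C3 * (Real.log Q ^ (19 / 10 : ℝ) * min 1 (2 * (Q : ℝ) * (1 - r))) := by
      apply add_le_add
      · exact mul_le_mul_of_nonneg_left (mul_le_mul_of_nonneg_right f1 hm) hC1.le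
      · exact mul_le_mul_of_nonneg_left (mul_le_mul_of_nonneg_right f2 hm) (by positivity)
    _ = _ := by ring

end Pool.Agent.Helper35.TB
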