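import Pool.Agent.Helper76.TB.Goals2
import Pool.Agent.Helper64.TB.DVS2

/-!
# Project TB: packet DVS3, almost surely the deviations are small, optimal thresholds
-/

set_option autoImplicit false

open Finset Filter Topology MeasureTheory ProbabilityTheory

namespace Pool.Agent.Helper35.TB

open Pool.Agent.Helper60.BFT Pool.Agent.Helper76.TB
open Pool.Agent.Helper64.TB (adapted_of Dev2_nonneg Dev2_le Dev2_loc Dev2_integrable growth2)

/-- DVS3. -/
theorem dvs3 (h1 : EDV3G) : Pool.Agent.Helper76.TB.DVS3G := by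
  intro c hc Z ρ hZ hρ Ω _ μ _ ω hω β hβ
  obtain ⟨C, R0, hR0, hC⟩ := h1 c hc Z ρ hZ hρ
  have hC' := hC Ω μ ω hω β hβ
  have hAd : Adapted β := adapted_of hρ.le hβ
  set D : ℕ → Ω → ℝ := fun r w => Dev2 ρ Z β r (fun p => ω p w) with hD
  have hDint : ∀ r, Integrable (D r) μ := fun r => Dev2_integrable μ ω hω hZ.mono hAd r
  have hD0 : ∀ r w, 0 ≤ D r w := fun r w => Dev2_nonneg ρ Z β r _
  set F : ℕ → Ω → ℝ := fun j w => ∑ r ∈ Ico R0 (2 ^ j), D r w with hF
  have hF0 : ∀ j w, 0 ≤ F j w := fun j w => Finset.sum_nonneg (fun r _ => hD0 r w)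
  have hFint : ∀ j, Integrable (F j) μ := fun j => integrable_finset_sum _ (fun r _ => hDint r)
  have hlog2 : 0 < Real.log 2 := Real.log_pos (by norm_num)
  have hFi : ∀ j : ℕ, 2 ≤ j → ∫ w, F j w ∂μ ≤ C * ((2 ^ j : ℝ) ^ 4 / (j * Real.log 2) ^ 9) := by
    intro j hj
    have h3 : 3 ≤ 2 ^ j := by
      calc 3 ≤ 2 ^ 2 := by norm_num
        _ ≤ 2 ^ j := Nat.pow_le_pow_right (by norm_num) hj
    have h2 := hC' (2 ^ j) h3
    rw [← integral_finset_sum _ (fun r _ => hDint r)] at h2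
    refine h2.trans (le_of_eq ?_)
    push_cast
    rw [Real.log_pow]
  have hC0 : 0 ≤ C := by
    have h2 := hFi 2 le_rfl
    have h3 : 0 ≤ ∫ w, F 2 w ∂μ := integral_nonneg (fun w => hF0 2 w)
    have h4 : 0 < ((2 ^ 2 : ℝ) ^ 4 / (((2 : ℕ) : ℝ) * Real.log 2) ^ 9) := by positivity
    by_contra h
    have := mul_neg_of_neg_of_pos (not_le.1 h) h4
    linarith
  set S : ℕ → Set Ω := fun j => {w | (2 ^ (j + 2) : ℝ) ^ 4 / ((j + 2 : ℕ) : ℝ) ^ 6 ≤ F (j + 2) w}
    with hS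
  set C1 := C / Real.log 2 ^ 9 with hC1
  have hC10 : 0 ≤ C1 := by rw [hC1]; positivity
  have hSj : ∀ j, μ (S j) ≤ ENNReal.ofReal (C1 * (1 / ((j + 2 : ℕ) : ℝ) ^ 2)) := by
    intro j
    have h2 := mul_meas_ge_le_integral_of_nonneg (Eventually.of_forall (hF0 (j + 2)))
      (hFint (j + 2)) ((2 ^ (j + 2) : ℝ) ^ 4 / ((j + 2 : ℕ) : ℝ) ^ 6)
    have h3 : μ (S j) = ENNReal.ofReal (μ.real (S j)) := by
      rw [Measure.real, ENNReal.ofReal_toReal (measure_ne_top _ _)]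
    rw [h3]
    apply ENNReal.ofReal_le_ofReal
    have h4 := h2.trans (hFi (j + 2) (by omega))
    set x : ℝ := ((j + 2 : ℕ) : ℝ) with hx
    have hx1 : 1 ≤ x := by rw [hx]; exact_mod_cast (by omega : 1 ≤ j + 2)
    have hx0 : 0 < x := by linarith
    set P : ℝ := (2 ^ (j + 2) : ℝ) ^ 4 with hP
    have hP0 : 0 < P := by rw [hP]; positivity
    have h5 : C * (P / (x * Real.log 2) ^ 9) = P / x ^ 6 * (C1 * (1 / x ^ 3)) := by
      rw [hC1, mul_pow]
      field_simp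
    rw [h5] at h4
    have h6 : μ.real (S j) ≤ C1 * (1 / x ^ 3) := le_of_mul_le_mul_left h4 (by positivity)
    refine h6.trans ?_
    apply mul_le_mul_of_nonneg_left _ hC10
    apply one_div_le_one_div_of_le (by positivity)
    exact pow_le_pow_right₀ hx1 (by norm_num)
  have hsum : Summable (fun j : ℕ => C1 * (1 / ((j + 2 : ℕ) : ℝ) ^ 2)) := by
    apply Summable.mul_left
    exact (summable_nat_add_iff 2).2 (Real.summable_one_div_nat_pow.2 (by norm_num))
  have hfin : ∑' j, μ (S j) ≠ ⊤ :=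
    ne_top_of_le_ne_top hsum.tsum_ofReal_ne_top (ENNReal.tsum_le_tsum hSj)
  filter_upwards [ae_eventually_notMem hfin] with w hw
  set c0 : ℝ := ∑ r ∈ range R0, D r w with hc0
  have htend : Tendsto (fun R : ℕ => Nat.clog 2 R) atTop atTop := by
    refine tendsto_atTop.2 (fun b => ?_)
    filter_upwards [eventually_ge_atTop (2 ^ b)] with R hR
    calc b = Nat.clog 2 (2 ^ b) := (Nat.clog_pow 2 b (by norm_num)).symm
      _ ≤ Nat.clog 2 R := Nat.clog_mono_right 2 hR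
  have htend2 : Tendsto (fun R : ℕ => Nat.clog 2 R - 2) atTop atTop :=
    (tendsto_sub_atTop_nat 2).comp htend
  filter_upwards [htend2.eventually hw, growth2 c0, eventually_ge_atTop 3,
    htend.eventually_ge_atTop 2] with R h2 h3 h4 h5
  set j := Nat.clog 2 R with hj
  have hRj : R ≤ 2 ^ j := Nat.le_pow_clog (by norm_num) R
  have hjR : (2 : ℝ) ^ j ≤ 2 * R := by
    have h6 : 2 ^ (j - 1) < R := Nat.pow_pred_clog_lt_self (by norm_num) (by omega)
    have h7 : 2 ^ j = 2 * 2 ^ (j - 1) := by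
      rw [← pow_succ']
      congr 1
      omega
    have h8 : 2 ^ j ≤ 2 * R := by omega
    exact_mod_cast h8
  have e2 : j - 2 + 2 = j := by omega
  have h8 : F j w < (2 ^ j : ℝ) ^ 4 / (j : ℝ) ^ 6 := by
    by_contra h
    apply h2
    show (2 ^ (j - 2 + 2) : ℝ) ^ 4 / ((j - 2 + 2 : ℕ) : ℝ) ^ 6 ≤ F (j - 2 + 2) w
    rw [e2]
    exact not_lt.1 h
  have hRr : (3 : ℝ) ≤ R := by exact_mod_cast h4
  have hlogpos : 0 < Real.log R := Real.log_pos (by linarith)
  have hjlog : Real.log R ≤ j := by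
    have h6 : Real.log R ≤ Real.log ((2 : ℝ) ^ j) :=
      Real.log_le_log (by linarith) (by exact_mod_cast hRj)
    rw [Real.log_pow] at h6
    have h7 : Real.log 2 ≤ 1 := by
      have := Real.log_two_lt_d9
      linarith
    have h9 : (j : ℝ) * Real.log 2 ≤ j * 1 := mul_le_mul_of_nonneg_left h7 (Nat.cast_nonneg j)
    linarith
  have h9 : (2 ^ j : ℝ) ^ 4 / (j : ℝ) ^ 6 ≤ 16 * ((R : ℝ) ^ 4 / Real.log R ^ 6) := by
    have h10 : (2 ^ j : ℝ) ^ 4 ≤ (2 * (R : ℝ)) ^ 4 := pow_le_pow_left₀ (by positivity) hjR 4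
    have h11 : Real.log R ^ 6 ≤ (j : ℝ) ^ 6 := pow_le_pow_left₀ hlogpos.le hjlog 6
    calc (2 ^ j : ℝ) ^ 4 / (j : ℝ) ^ 6 ≤ (2 * (R : ℝ)) ^ 4 / Real.log R ^ 6 := by
          apply div_le_div₀ (by positivity) h10 (by positivity) h11
      _ = 16 * ((R : ℝ) ^ 4 / Real.log R ^ 6) := by ring
  have h10 : ∑ r ∈ range R, D r w ≤ c0 + F j w := by
    have h11 : range R ⊆ range R0 ∪ Ico R0 (2 ^ j) := by
      intro r hr
      rw [mem_union, mem_range, mem_Ico]
      rw [mem_range] at hr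
      by_cases h : r < R0
      · exact Or.inl h
      · exact Or.inr ⟨not_lt.1 h, lt_of_lt_of_le hr hRj⟩
    calc ∑ r ∈ range R, D r w ≤ ∑ r ∈ range R0 ∪ Ico R0 (2 ^ j), D r w :=
          Finset.sum_le_sum_of_subset_of_nonneg h11 (fun r _ _ => hD0 r w)
      _ ≤ ∑ r ∈ range R0, D r w + ∑ r ∈ Ico R0 (2 ^ j), D r w := by
          rw [← Finset.sum_union_inter]
          have : 0 ≤ ∑ r ∈ range R0 ∩ Ico R0 (2 ^ j), D r w :=
            Finset.sum_nonneg (fun r _ => hD0 r w)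
          linarith
  calc ∑ r ∈ range R, D r w ≤ c0 + F j w := h10
    _ ≤ c0 + 16 * ((R : ℝ) ^ 4 / Real.log R ^ 6) := by linarith
    _ ≤ _ := h3

end Pool.Agent.Helper35.TB
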