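import Pool.Agent.Helper76.TB.Goals2
import Pool.Agent.Helper80.TB.EDV2
import Pool.Agent.Helper95.TB.DIF2
import Pool.Agent.Helper27.TB.REM2

/-!
# Project TB: packet EDV3, expected total deviation, optimal thresholds
-/

set_option autoImplicit false

open Finset Filter Topology MeasureTheory ProbabilityTheory

namespace Pool.Agent.Helper35.TB

open Pool.Agent.Helper90.Twin (Ps Gz)
open Pool.Agent.Helper60.BFT (len YF YP T0 T1 T2 Rem mT root Av lg Uni Adapted mem_lg lg_nodup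
  lg_prime)
open Pool.Agent.Helper76.TB (Dev2 EE2 Thr2 CutL AdH l2)
open Pool.Agent.Helper39.BFT (stat int4 T0_bound T1_bound T2_bound Rem_bound harm_le)
open Pool.Agent.Helper80.TB (adapted_of edv_log_tendsto edv_log_pow_le len4_le sumsq2 sum_cube)

/-- the conditions that hold for large `r` -/
theorem good3 {c : ℝ} (hc : 0 < c) {Z ρ : ℕ → ℕ} (hZ : CutL c Z) (hρ : Thr2 ρ) :
    ∀ᶠ r : ℕ in atTop, 5 ≤ Z (r ^ 4) ∧ ρ r ≤ Z (r ^ 4) ∧ Real.log r ^ 20 ≤ ρ r ∧
      Real.log r ^ 10 ≤ r ∧ 1 ≤ Real.log r := by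
  have h4 : Tendsto (fun r : ℕ => r ^ 4) atTop atTop := tendsto_pow_atTop (by norm_num)
  have h1 : ∀ᶠ r : ℕ in atTop, c / 2 < Real.log (Z (r ^ 4)) / Real.log ((r ^ 4 : ℕ) : ℝ) :=
    (hZ.lim.comp h4).eventually (lt_mem_nhds (by linarith))
  have h2 : ∀ᶠ r : ℕ in atTop, Real.log (ρ r) * Real.log (Real.log r) / Real.log r < c :=
    hρ.high.eventually (gt_mem_nhds hc)
  filter_upwards [h1, h2, hρ.low, edv_log_pow_le 10,
    edv_log_tendsto.eventually_ge_atTop (Real.exp 1),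
    edv_log_tendsto.eventually_ge_atTop (Real.log 5 / c)] with r g1 g2 g3 g4 g5 g6
  have he : (1 : ℝ) ≤ Real.exp 1 := Real.one_le_exp (by norm_num)
  have hL1 : 1 ≤ Real.log r := he.trans g5
  have hL0 : 0 < Real.log r := by linarith
  have hLL : 1 ≤ Real.log (Real.log r) := by
    rw [Real.le_log_iff_exp_le hL0]
    exact g5
  have e1 : Real.log ((r ^ 4 : ℕ) : ℝ) = 4 * Real.log r := by
    push_cast
    rw [Real.log_pow]
    norm_num
  rw [e1, lt_div_iff₀ (by linarith)] at g1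
  have g1' : 2 * c * Real.log r < Real.log (Z (r ^ 4)) := by linarith
  rw [div_lt_iff₀ hL0] at g2
  have hρ1 : (1 : ℝ) ≤ ρ r := by
    refine le_trans ?_ g3
    exact one_le_pow₀ hL1
  have hρ0 : 0 ≤ Real.log (ρ r) := Real.log_nonneg hρ1
  have g2' : Real.log (ρ r) ≤ c * Real.log r := by
    have e2 : Real.log (ρ r) * 1 ≤ Real.log (ρ r) * Real.log (Real.log r) :=
      mul_le_mul_of_nonneg_left hLL hρ0
    linarith
  have hcL : 0 < c * Real.log r := by positivity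
  have hZ0 : 0 < Z (r ^ 4) := by
    rcases Nat.eq_zero_or_pos (Z (r ^ 4)) with h | h
    · rw [h] at g1'
      simp only [Nat.cast_zero, Real.log_zero] at g1'
      linarith
    · exact h
  have hZ0' : (0 : ℝ) < Z (r ^ 4) := by exact_mod_cast hZ0
  refine ⟨?_, ?_, g3, g4, hL1⟩
  · have e3 : Real.log 5 ≤ c * Real.log r := by
      rw [div_le_iff₀ hc] at g6
      linarith
    have e4 : Real.log 5 < Real.log (Z (r ^ 4)) := by linarith
    have e5 := (Real.log_lt_log_iff (by norm_num) hZ0').1 e4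
    have e6 : 5 < Z (r ^ 4) := by exact_mod_cast e5
    omega
  · have e4 : Real.log (ρ r) < Real.log (Z (r ^ 4)) := by linarith
    have e5 := (Real.log_lt_log_iff (by linarith) hZ0').1 e4
    have e6 : ρ r < Z (r ^ 4) := by exact_mod_cast e5
    exact e6.le

/-- EDV3. -/
theorem edv3 : Pool.Agent.Helper76.TB.EDV3G := by
  have h1 : Pool.Agent.Helper76.TB.DIF2G := Pool.Agent.Helper95.TB.dif2
  have h2 : Pool.Agent.Helper76.TB.REM2G := Pool.Agent.Helper27.TB.rem2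
  intro c hc Z ρ hZ hρ
  obtain ⟨R1, hR1⟩ := eventually_atTop.1 (good3 hc hZ hρ)
  set F : ℝ := ((Nat.factorial 10 : ℕ) : ℝ) with hF
  have hF0 : 0 < F := by
    rw [hF]
    exact_mod_cast Nat.factorial_pos 10
  refine ⟨1683 * (F + 4 ^ 10) + 320 * F, max R1 5, by omega, ?_⟩
  intro Ω _ μ _ ω hω β hβ R hR'
  have hRr : (3 : ℝ) ≤ R := by exact_mod_cast hR'
  have hexp : Real.exp 1 ≤ 3 := by
    have := Real.exp_one_lt_d9
    linarith
  have hlogR : 1 ≤ Real.log R := by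
    rw [Real.le_log_iff_exp_le (by linarith)]
    linarith
  have hAd : Adapted β := adapted_of hρ.le hβ
  set D : ℕ → ℝ := fun r => ∑ p ∈ Ps (Z (r ^ 4)), 2 / (p : ℝ) with hDdef
  have hDmono : ∀ r, D r ≤ D (r + 1) := by
    intro r
    simp only [hDdef]
    apply Finset.sum_le_sum_of_subset_of_nonneg
    · intro p hp
      rw [Helper90.Twin.mem_Ps] at hp ⊢
      have : Z (r ^ 4) ≤ Z ((r + 1) ^ 4) := hZ.mono (Nat.pow_le_pow_left (Nat.le_succ r) 4)
      exact ⟨hp.1, hp.2.1.trans this, hp.2.2⟩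
    · intro p _ _
      positivity
  have hblock : ∀ r ∈ Ico (max R1 5) R, ∫ w, Dev2 ρ Z β r (fun p => ω p w) ∂μ
      ≤ 1683 * ((r : ℝ) ^ 3 / Real.log r ^ 10) + 32 * (R : ℝ) ^ 3 * (D (r + 1) - D r) := by
    intro r hr
    rw [mem_Ico] at hr
    have hr1 : R1 ≤ r := le_trans (le_max_left _ _) hr.1
    have hr5 : 5 ≤ r := le_trans (le_max_right _ _) hr.1
    obtain ⟨g1, g2, g3, g4, g5⟩ := hR1 r hr1
    have hrR' : (r : ℝ) ≤ R := by exact_mod_cast hr.2.le
    have hloc := Pool.Agent.Helper30.BFT.locG 4 Z β hZ.mono hAd r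
    set M := max r (Z ((r + 1) ^ 4)) with hM
    have hlen := len4_le r (by omega)
    have hs2 : Real.sqrt ((((lg (ρ r) (Z (r ^ 4))).map
        (fun q : ℕ => (12 * ((len 4 r : ℝ) / (q : ℝ) + 1)) ^ 2)).sum))
        ≤ 561 * ((r : ℝ) ^ 3 / Real.log r ^ 10) :=
      sumsq2 r (ρ r) (Z (r ^ 4)) (Real.log r) (len 4 r) (Nat.cast_nonneg _) hlen (by omega)
        (hZ.le _) g2 g3 g5 g4
    have hL1 : ∀ q ∈ lg (ρ r) (Z (r ^ 4)), ρ r < q := fun q hq => (mem_lg.1 hq).2.2.2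
    have hd := fun (q : ℕ) (hq : q ∈ lg (ρ r) (Z (r ^ 4))) =>
      h1 ρ Z β hρ.le hβ r q (lg_prime q hq) (hL1 q hq)
    have s0 := stat Pool.Agent.Helper61.BFT.varg Pool.Agent.Helper75.BFT.law Ω μ ω hω
      (lg (ρ r) (Z (r ^ 4))) (lg_nodup _ _) lg_prime (T0 4 Z β r) (len 4 r)
      (T0_bound 4 Z β r) M (fun a a' h => (hloc a a' h).1)
      (fun q => 12 * ((len 4 r : ℝ) / (q : ℝ) + 1))
      (fun q hq a u _ v _ => (hd q hq a u v).1)
    have s1 := stat Pool.Agent.Helper61.BFT.varg Pool.Agent.Helper75.BFT.law Ω μ ω hω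
      (lg (ρ r) (Z (r ^ 4))) (lg_nodup _ _) lg_prime (T1 4 Z β r) (len 4 r)
      (T1_bound 4 Z β r) M (fun a a' h => (hloc a a' h).2.1)
      (fun q => 12 * ((len 4 r : ℝ) / (q : ℝ) + 1))
      (fun q hq a u _ v _ => (hd q hq a u v).2.1)
    have s2 := stat Pool.Agent.Helper61.BFT.varg Pool.Agent.Helper75.BFT.law Ω μ ω hω
      (lg (ρ r) (Z (r ^ 4))) (lg_nodup _ _) lg_prime (T2 4 Z β r) (len 4 r)
      (T2_bound 4 Z β r) M (fun a a' h => (hloc a a' h).2.2.1)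
      (fun q => 12 * ((len 4 r : ℝ) / (q : ℝ) + 1))
      (fun q hq a u _ v _ => (hd q hq a u v).2.2)
    have s3 := Pool.Agent.Helper75.BFT.law Ω μ ω hω [] List.nodup_nil (by simp) M
      (Rem 4 Z β r) (fun a a' h => (hloc a a' h).2.2.2.1) ⟨len 4 r, Rem_bound 4 Z β r⟩
    have hrem := h2 Ω μ ω hω ρ Z β hZ.mono hρ.le hβ r g1 g2
    have hint : ∫ w, Dev2 ρ Z β r (fun p => ω p w) ∂μ
        = ∫ w, |T0 4 Z β r (fun p => ω p w)
            - Av (lg (ρ r) (Z (r ^ 4))) (T0 4 Z β r) (fun p => ω p w)| ∂μ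
        + ∫ w, |T1 4 Z β r (fun p => ω p w)
            - Av (lg (ρ r) (Z (r ^ 4))) (T1 4 Z β r) (fun p => ω p w)| ∂μ
        + ∫ w, |T2 4 Z β r (fun p => ω p w)
            - Av (lg (ρ r) (Z (r ^ 4))) (T2 4 Z β r) (fun p => ω p w)| ∂μ
        + ∫ w, Rem 4 Z β r (fun p => ω p w) ∂μ := by
      have e : ∀ w, Dev2 ρ Z β r (fun p => ω p w)
          = |T0 4 Z β r (fun p => ω p w)
              - Av (lg (ρ r) (Z (r ^ 4))) (T0 4 Z β r) (fun p => ω p w)|
          + |T1 4 Z β r (fun p => ω p w)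
              - Av (lg (ρ r) (Z (r ^ 4))) (T1 4 Z β r) (fun p => ω p w)|
          + |T2 4 Z β r (fun p => ω p w)
              - Av (lg (ρ r) (Z (r ^ 4))) (T2 4 Z β r) (fun p => ω p w)|
          + Rem 4 Z β r (fun p => ω p w) := fun w => rfl
      simp only [e]
      exact int4 μ _ _ _ _ s0.1 s1.1 s2.1 s3.1
    have hremb : (len 4 r : ℝ) * ((∑ p ∈ Ps (Z ((r + 1) ^ 4)), 2 / (p : ℝ))
        - ∑ p ∈ Ps (Z (r ^ 4)), 2 / (p : ℝ)) ≤ 32 * (R : ℝ) ^ 3 * (D (r + 1) - D r) := by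
      have e1 : (0 : ℝ) ≤ D (r + 1) - D r := by linarith [hDmono r]
      have e2 : (len 4 r : ℝ) ≤ 32 * (R : ℝ) ^ 3 := by
        refine hlen.trans ?_
        apply mul_le_mul_of_nonneg_left _ (by norm_num)
        exact pow_le_pow_left₀ (Nat.cast_nonneg _) hrR' _
      exact mul_le_mul_of_nonneg_right e2 e1
    rw [hint]
    have t0 := s0.2.trans hs2
    have t1 := s1.2.trans hs2
    have t2 := s2.2.trans hs2
    have t3 := hrem.trans hremb
    linarith
  have hsum := Finset.sum_le_sum hblock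
  refine hsum.trans ?_
  rw [Finset.sum_add_distrib, ← Finset.mul_sum, ← Finset.mul_sum]
  have hcube := sum_cube (max R1 5) R (by omega) hR'
  -- the telescoping sum
  have hD0 : ∀ r, 0 ≤ D r := fun r => Finset.sum_nonneg (fun p _ => by positivity)
  have hsumD : ∑ r ∈ Ico (max R1 5) R, (D (r + 1) - D r) ≤ D R := by
    rcases le_or_gt (max R1 5) R with h | h
    · rw [Finset.sum_Ico_sub D h]
      linarith [hD0 (max R1 5)]
    · rw [Finset.Ico_eq_empty (by omega)]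
      simpa using hD0 R
  have hDR : D R ≤ 10 * Real.log R := by
    have e1 : D R ≤ ∑ n ∈ Icc 1 (R ^ 4), 2 * ((n : ℝ))⁻¹ := by
      simp only [hDdef]
      calc ∑ p ∈ Ps (Z (R ^ 4)), 2 / (p : ℝ) = ∑ p ∈ Ps (Z (R ^ 4)), 2 * ((p : ℝ))⁻¹ := by
            apply Finset.sum_congr rfl
            intro p _
            rw [div_eq_mul_inv]
        _ ≤ _ := by
            apply Finset.sum_le_sum_of_subset_of_nonneg
            · intro p hp
              rw [Helper90.Twin.mem_Ps] at hp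
              rw [mem_Icc]
              exact ⟨by omega, hp.2.1.trans (hZ.le _)⟩
            · intro p _ _
              positivity
    rw [← Finset.mul_sum] at e1
    have e2 := harm_le (R ^ 4)
    have e3 : Real.log ((R ^ 4 : ℕ) : ℝ) = 4 * Real.log R := by
      push_cast
      rw [Real.log_pow]
      norm_num
    rw [e3] at e2
    linarith
  -- sizes
  have hpow : Real.log R ^ 10 ≤ F * R := by
    have e1 := Real.pow_div_factorial_le_exp (Real.log R) (by linarith) 10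
    rw [Real.exp_log (by linarith)] at e1
    rw [div_le_iff₀ hF0] at e1
    linarith
  have hL9 : 0 < Real.log R ^ 9 := by positivity
  have hL10 : 0 < Real.log R ^ 10 := by positivity
  have q1 : (R : ℝ) ^ 2 ≤ F * ((R : ℝ) ^ 4 / Real.log R ^ 9) := by
    rw [← mul_div_assoc, le_div_iff₀ hL9]
    have e1 : Real.log R ^ 9 ≤ Real.log R ^ 10 := pow_le_pow_right₀ hlogR (by norm_num)
    have e2 : F * (R : ℝ) ≤ F * (R : ℝ) ^ 2 := by
      apply mul_le_mul_of_nonneg_left _ hF0.le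
      nlinarith
    calc (R : ℝ) ^ 2 * Real.log R ^ 9 ≤ (R : ℝ) ^ 2 * (F * (R : ℝ) ^ 2) :=
          mul_le_mul_of_nonneg_left (by linarith) (by positivity)
      _ = _ := by ring
  have q2 : (R : ℝ) ^ 4 / Real.log R ^ 10 ≤ (R : ℝ) ^ 4 / Real.log R ^ 9 := by
    apply div_le_div_of_nonneg_left (by positivity) hL9
    exact pow_le_pow_right₀ hlogR (by norm_num)
  have q3 : (R : ℝ) ^ 3 * Real.log R ≤ F * ((R : ℝ) ^ 4 / Real.log R ^ 9) := by
    rw [← mul_div_assoc, le_div_iff₀ hL9]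
    calc (R : ℝ) ^ 3 * Real.log R * Real.log R ^ 9 = (R : ℝ) ^ 3 * Real.log R ^ 10 := by ring
      _ ≤ (R : ℝ) ^ 3 * (F * R) := mul_le_mul_of_nonneg_left hpow (by positivity)
      _ = _ := by ring
  have p1 : 1683 * ∑ r ∈ Ico (max R1 5) R, (r : ℝ) ^ 3 / Real.log r ^ 10
      ≤ 1683 * (F + 4 ^ 10) * ((R : ℝ) ^ 4 / Real.log R ^ 9) := by
    have e1 : (R : ℝ) ^ 2 + 4 ^ 10 * ((R : ℝ) ^ 4 / Real.log R ^ 10)
        ≤ (F + 4 ^ 10) * ((R : ℝ) ^ 4 / Real.log R ^ 9) := by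
      rw [add_mul]
      linarith
    calc 1683 * ∑ r ∈ Ico (max R1 5) R, (r : ℝ) ^ 3 / Real.log r ^ 10
        ≤ 1683 * ((F + 4 ^ 10) * ((R : ℝ) ^ 4 / Real.log R ^ 9)) :=
          mul_le_mul_of_nonneg_left (hcube.trans e1) (by norm_num)
      _ = _ := by ring
  have p2 : 32 * (R : ℝ) ^ 3 * ∑ r ∈ Ico (max R1 5) R, (D (r + 1) - D r)
      ≤ 320 * F * ((R : ℝ) ^ 4 / Real.log R ^ 9) := by
    calc 32 * (R : ℝ) ^ 3 * ∑ r ∈ Ico (max R1 5) R, (D (r + 1) - D r)
        ≤ 32 * (R : ℝ) ^ 3 * (10 * Real.log R) :=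
          mul_le_mul_of_nonneg_left (hsumD.trans hDR) (by positivity)
      _ = 320 * ((R : ℝ) ^ 3 * Real.log R) := by ring
      _ ≤ 320 * (F * ((R : ℝ) ^ 4 / Real.log R ^ 9)) :=
          mul_le_mul_of_nonneg_left q3 (by norm_num)
      _ = _ := by ring
  linarith

end Pool.Agent.Helper35.TB
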