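import Pool.Agent.Helper76.TB.Goals2
import Pool.Agent.Helper60.BFT.Core
import Pool.Agent.Helper17.TB.MEAN
import Pool.Agent.Helper65.TB.HB
import Pool.Agent.Helper70.TB.SEQ2

/-!
# Project TB: packet MEAN2, the three means for long sums
-/

set_option autoImplicit false

open Finset Filter Topology

namespace Pool.Agent.Helper35.TB

open Pool.Agent.Helper90.Twin (Ps Gz Sz XX yy Xz avgI errB sig SieveSys)
open Pool.Agent.Helper60.BFT (XA yA Av lg lg_pos Av_sum Av_sub Av_add Av_const Av_mono Av_mul_left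
  Av_ext abs_Av_le B0 B1 B2)
open Pool.Agent.Helper76.TB
open Pool.Agent.Helper17.TB (tendsto_l2 abs_sg)

/-- MEAN2. -/
theorem mean2 (h1 : UNI2G) (h4 : LONGG) : Pool.Agent.Helper76.TB.MEAN2G := by
  have h2 : SEQ2G := Pool.Agent.Helper70.TB.seq2
  have h3 : HBG := Pool.Agent.Helper65.TB.hb
  obtain ⟨c1, c2, C', hc1, hc2, hC', hU⟩ := h1
  have hL : Tendsto (fun Z : ℕ => Real.log (Z : ℝ)) atTop atTop :=
    Real.tendsto_log_atTop.comp tendsto_natCast_atTop_atTop
  have hlo : ∀ᶠ Z : ℕ in atTop, 12 * l2 Z ≤ Real.log Z := by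
    have h5 : ∀ᶠ x : ℝ in atTop, ‖Real.log x‖ ≤ (1 / 12) * ‖id x‖ :=
      (Asymptotics.isLittleO_iff.1 Real.isLittleO_log_id_atTop) (by norm_num)
    filter_upwards [hL.eventually h5, hL.eventually_ge_atTop 1] with Z hZ hZ1
    have h6 := (le_abs_self (Real.log (Real.log (Z : ℝ))))
    simp only [id, Real.norm_eq_abs] at hZ
    rw [abs_of_nonneg (by linarith : (0 : ℝ) ≤ Real.log (Z : ℝ))] at hZ
    have h7 : l2 Z = Real.log (Real.log (Z : ℝ)) := rfl
    rw [h7]
    linarith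
  refine ⟨max 1 (max (101 / c1) (6 / c2)), le_max_left _ _, ?_⟩
  set C := max 1 (max (101 / c1) (6 / c2)) with hC
  have hCa : 101 / c1 ≤ C := (le_max_left _ _).trans (le_max_right _ _)
  have hCb : 6 / c2 ≤ C := (le_max_right _ _).trans (le_max_right _ _)
  rw [div_le_iff₀ hc1] at hCa
  rw [div_le_iff₀ hc2] at hCb
  filter_upwards [hU, h3 1, h4, tendsto_l2.eventually_ge_atTop 3,
    hL.eventually_ge_atTop (6 * C' + 7), hlo] with Z hU hB hlong hl2 hlog hlo
  intro r N hr1 hr2 hN1' hN2 A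
  set L := Real.log (Z : ℝ) with hLdef
  have hL7 : 7 ≤ L := by linarith
  have hL0 : 0 < L := by linarith
  have hG0 := Pool.Agent.Helper90.Twin.Gz_pos Z
  have hG1 := Pool.Agent.Helper90.Twin.Gz_le_one Z
  obtain ⟨b1, b2, -, b4, -, -⟩ := hB
  have hr7 : (7 : ℝ) ≤ r := hL7.trans hr1
  have hlr : 0 < Real.log r := Real.log_pos (by linarith)
  have hH0 : 100 * l2 Z / Gz Z ≤ HH Z := Nat.le_ceil _
  rw [div_le_iff₀ hG0] at hH0
  have hq : C * l2 Z ≤ Real.log N / Real.log r := by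
    rw [le_div_iff₀ hlr]
    exact hN2
  have hca : HH Z * Gz Z ≤ c1 * (Real.log N / Real.log r) := by
    calc (HH Z : ℝ) * Gz Z ≤ 101 * l2 Z := b4
      _ ≤ (C * c1) * l2 Z := mul_le_mul_of_nonneg_right hCa (by linarith)
      _ = c1 * (C * l2 Z) := by ring
      _ ≤ _ := mul_le_mul_of_nonneg_left hq hc1.le
  have hcb : 6 * l2 Z ≤ c2 * (Real.log N / Real.log r) := by
    calc 6 * l2 Z ≤ (C * c2) * l2 Z := mul_le_mul_of_nonneg_right hCb (by linarith)
      _ = c2 * (C * l2 Z) := by ring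
      _ ≤ _ := mul_le_mul_of_nonneg_left hq hc2.le
  have hexp : Real.exp (-(c2 * (Real.log N / Real.log r))) ≤ 1 / L ^ 6 := by
    have e1 : Real.exp (6 * l2 Z) = L ^ 6 := by
      have e2 : l2 Z = Real.log L := rfl
      rw [e2]
      have e3 : (6 : ℝ) * Real.log L = ((6 : ℕ) : ℝ) * Real.log L := by norm_num
      rw [e3, ← Real.log_pow, Real.exp_log (by positivity)]
    rw [← e1, one_div, ← Real.exp_neg]
    exact Real.exp_le_exp.2 (by linarith)
  have hN0 : 0 < (N : ℝ) := by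
    rcases Nat.eq_zero_or_pos N with h | h
    · rw [h, Nat.cast_zero, Real.log_zero] at hN1'
      linarith
    · exact_mod_cast h
  have hEU : N * Gz Z * EU c2 C' Z r N ≤ 2 * C' * (N / L ^ 6) := by
    have e1 : EU c2 C' Z r N ≤ 2 * C' * (1 / L ^ 6) := by
      have e3 : EU c2 C' Z r N
          = C' * (Real.exp (-(c2 * (Real.log N / Real.log r))) + 1 / L ^ 6) := rfl
      rw [e3]
      have e4 := mul_le_mul_of_nonneg_left hexp hC'.le
      linarith
    have e2 : 0 ≤ 2 * C' * (1 / L ^ 6) := by positivity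
    calc N * Gz Z * EU c2 C' Z r N ≤ N * Gz Z * (2 * C' * (1 / L ^ 6)) :=
          mul_le_mul_of_nonneg_left e1 (by positivity)
      _ ≤ N * 1 * (2 * C' * (1 / L ^ 6)) :=
          mul_le_mul_of_nonneg_right (mul_le_mul_of_nonneg_left hG1 hN0.le) e2
      _ = _ := by ring
  obtain ⟨u1, u2, u3⟩ := hU r N (HH Z) hr1 hr2 hN1' (by linarith) hca b4 A
  have hH1 : 1 ≤ HH Z := by
    have : (1 : ℝ) ≤ HH Z := by linarith
    exact_mod_cast this
  have hN1 : 1 ≤ (N : ℝ) / L ^ 6 := by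
    rw [le_div_iff₀ (by positivity), one_mul]
    have q1 : Real.log (L ^ 6) ≤ Real.log N := by
      rw [Real.log_pow]
      have : l2 Z = Real.log L := rfl
      rw [← this]
      push_cast
      linarith
    exact (Real.log_le_log_iff (by positivity) hN0).1 q1
  have hq0 : 0 ≤ (N : ℝ) / L ^ 6 := by positivity
  have hdiv : (6 * C' + 7) * ((N : ℝ) / L ^ 6) ≤ N / L ^ 5 := by
    have e : (N : ℝ) / L ^ 5 = L * (N / L ^ 6) := by field_simp
    rw [e]
    exact mul_le_mul_of_nonneg_right hlog (by positivity)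
  have hC'q : 0 ≤ C' * ((N : ℝ) / L ^ 6) := by positivity
  have hdiv2 : 6 * (C' * ((N : ℝ) / L ^ 6)) + 7 * ((N : ℝ) / L ^ 6) ≤ N / L ^ 5 := by
    linarith
  have hEU2 : N * Gz Z * EU c2 C' Z r N ≤ 2 * (C' * (N / L ^ 6)) := by linarith
  set q : ℝ := (N : ℝ) / L ^ 6 with hqdef
  set E : ℝ := N * Gz Z * EU c2 C' Z r N with hE0
  refine ⟨by linarith, by linarith, ?_⟩
  have p1 : |Av (lg r Z) (fun B => ∑ t ∈ range N, phi (fun _ => 1) (XA Z B) (HH Z) t) A
      - N * PA Z (fun _ => 1)| ≤ E := u1 (fun _ => 1) (fun _ => by simp)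
  have p2 : |Av (lg r Z) (fun B => ∑ t ∈ range N, phi sg (XA Z B) (HH Z) t) A
      - N * PA Z sg| ≤ E := u1 sg abs_sg
  have hE : |Av (lg r Z) (fun B => B2 (XA Z B) N - ∑ t ∈ range N, phi sg (XA Z B) (HH Z) t) A| ≤
      Av (lg r Z) (fun B => (B0 (XA Z B) N - ∑ t ∈ range N, phi (fun _ => 1) (XA Z B) (HH Z) t)
        + 1) A := by
    refine (abs_Av_le _ _ _).trans (Av_mono _ _ _ _ fun B => ?_)
    have := h2 (XA Z B) (Pool.Agent.Helper60.BFT.XA_zero_one Z B) (HH Z) N hH1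
    rw [Finset.sum_sub_distrib] at this
    exact this
  rw [Av_add, Av_sub, Av_const _ lg_pos, Av_sub] at hE
  have hlong2 : (N : ℝ) * (Gz Z - PA Z (fun _ => 1)) ≤ q := by
    have := mul_le_mul_of_nonneg_left hlong hN0.le
    rwa [mul_one_div] at this
  rw [mul_sub] at hlong2
  rw [abs_le] at p1 p2 u2 hE
  rw [abs_le]
  constructor
  · linarith [p1.1, p1.2, p2.1, p2.2, u2.1, u2.2, hE.1, hE.2]
  · linarith [p1.1, p1.2, p2.1, p2.2, u2.1, u2.2, hE.1, hE.2]

end Pool.Agent.Helper35.TB
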