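import Pool.Agent.Helper76.TB.Goals2
import Pool.Agent.Helper85.TB.TRANS

/-!
# Project TB, packet U-TRANS2
-/

set_option autoImplicit false

open Finset

namespace Pool.Agent.Helper35.TB

open Pool.Agent.Helper76.TB
open Pool.Agent.Helper90.Twin (Ps Gz Sz XX yy Xz avgI EE TT)
open Pool.Agent.Helper60.BFT (XA yA Av lg)
open Pool.Agent.Helper85.TB (LL MM Good SJ IS LL_sum MM_sum LL_sub MM_sub LL_abs MM_abs Q_pos
  SJ_eq card_IS phi_bonf sum_EE_eq)

theorem Sz_nonneg' (z : ℕ) : 0 ≤ Sz z := by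
  unfold Pool.Agent.Helper90.Twin.Sz
  positivity

theorem errU_nonneg (r b k m M N : ℕ) : 0 ≤ errU r b k m M N := by
  unfold errU
  have := Sz_nonneg' b
  positivity

/-- the mean of the positive sum of order `j` -/
theorem MM_SJ_one (Z H j : ℕ) : MM Z (SJ (fun _ => 1) H j) = TZ Z H (j + 1) := by
  unfold Pool.Agent.Helper85.TB.MM TZ
  congr 1
  refine Finset.sum_congr rfl fun t _ => ?_
  unfold Pool.Agent.Helper85.TB.SJ
  have e : ∑ g ∈ Icc 1 H, (1 : ℝ) * Xz Z (t + g) * EE (Ioo 0 g) (fun i => Xz Z (t + i)) j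
      = EE (Icc 1 H) (fun i => Xz Z (t + i)) (j + 1) := by
    rw [← sum_EE_eq]
    exact Finset.sum_congr rfl fun g _ => by rw [one_mul]
  rw [e]
  rfl

/-- transfer of the sums of order `j` -/
theorem SJ_transfer2 (h1 : CORR2G) (r Z J H R j m M N : ℕ) (A : ℕ → ℕ) (c : ℕ → ℝ) (hrZ : r ≤ Z)
    (hm : Odd m) (hM : Odd M) (hk : 4 * (R + 2) + 2 ≤ Nat.sqrt^[J] r)
    (hs : sgm (R + 2) M ≤ 1 / 2) (hj : j ≤ R) (hc : ∀ g, |c g| ≤ 1) :
    |LL r Z N A (SJ c H j) - N * MM Z (SJ c H j)|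
      ≤ 2 * sgm (R + 2) M * N * TZ Z H (j + 1)
        + (H : ℝ) ^ (j + 1) * errU r (Nat.sqrt^[J] r) (R + 2) m M N := by
  have hcorr := (h1 r Z J (R + 2) m M N hrZ (by omega) hm hM hk hs).1
  set E := errU r (Nat.sqrt^[J] r) (R + 2) m M N with hE
  have hE0 : 0 ≤ E := errU_nonneg _ _ _ _ _ _
  have hTZ : TZ Z H (j + 1) = ∑ a ∈ IS H j,
      MM Z (fun X t => ∏ i ∈ insert 0 (insert a.1 a.2), X (t + i)) := by
    rw [← MM_SJ_one, SJ_eq, MM_sum Z (IS H j) (fun a => 1)
      (fun a X t => ∏ i ∈ insert 0 (insert a.1 a.2), X (t + i))]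
    exact Finset.sum_congr rfl fun a _ => one_mul _
  rw [SJ_eq, LL_sum r Z N A (IS H j) (fun a => c a.1)
    (fun a X t => ∏ i ∈ insert 0 (insert a.1 a.2), X (t + i)),
    MM_sum Z (IS H j) (fun a => c a.1)
    (fun a X t => ∏ i ∈ insert 0 (insert a.1 a.2), X (t + i)), Finset.mul_sum,
    ← Finset.sum_sub_distrib]
  refine (Finset.abs_sum_le_sum_abs _ _).trans ?_
  calc _ ≤ ∑ a ∈ IS H j, (2 * sgm (R + 2) M * (N *
        MM Z (fun X t => ∏ i ∈ insert 0 (insert a.1 a.2), X (t + i))) + E) := by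
        refine Finset.sum_le_sum fun a ha => ?_
        obtain ⟨ha1, ha2⟩ := Finset.mem_sigma.1 ha
        have hcard := Pool.Agent.Helper90.Twin.card_insert_two
          (by have := (Finset.mem_Icc.1 ha1).1; omega) ha2
        have h3 := hcorr (insert 0 (insert a.1 a.2)) (by rw [hcard]; omega) A
        have e : c a.1 * LL r Z N A (fun X t => ∏ i ∈ insert 0 (insert a.1 a.2), X (t + i))
            - N * (c a.1 * MM Z (fun X t => ∏ i ∈ insert 0 (insert a.1 a.2), X (t + i)))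
            = c a.1 * (LL r Z N A (fun X t => ∏ i ∈ insert 0 (insert a.1 a.2), X (t + i))
              - N * MM Z (fun X t => ∏ i ∈ insert 0 (insert a.1 a.2), X (t + i))) := by ring
        rw [e, abs_mul]
        have h4 : |LL r Z N A (fun X t => ∏ i ∈ insert 0 (insert a.1 a.2), X (t + i))
              - N * MM Z (fun X t => ∏ i ∈ insert 0 (insert a.1 a.2), X (t + i))|
            ≤ 2 * sgm (R + 2) M * (N *
              MM Z (fun X t => ∏ i ∈ insert 0 (insert a.1 a.2), X (t + i))) + E := h3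
        calc _ ≤ 1 * (2 * sgm (R + 2) M * (N *
              MM Z (fun X t => ∏ i ∈ insert 0 (insert a.1 a.2), X (t + i))) + E) :=
              mul_le_mul (hc _) h4 (abs_nonneg _) (by norm_num)
          _ = _ := one_mul _
    _ = 2 * sgm (R + 2) M * N * TZ Z H (j + 1) + ((IS H j).card : ℝ) * E := by
        rw [Finset.sum_add_distrib, Finset.sum_const, nsmul_eq_mul, hTZ, Finset.mul_sum]
        congr 1
        refine Finset.sum_congr rfl fun a _ => ?_
        ring
    _ ≤ _ := by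
        have := mul_le_mul_of_nonneg_right (card_IS H j) hE0
        linarith

/-- TRANS2. -/
theorem trans2 (h1 : CORR2G) : Pool.Agent.Helper76.TB.TRANS2G := by
  intro r Z J H R m M N A c hrZ hH hm hM hk hs hc
  set E := errU r (Nat.sqrt^[J] r) (R + 2) m M N with hE
  have hE0 : 0 ≤ E := errU_nonneg _ _ _ _ _ _
  have hH1 : (1 : ℝ) ≤ H := by exact_mod_cast hH
  set P : (ℕ → ℝ) → ℕ → ℝ := fun X t => phi c X H t with hP
  set T : (ℕ → ℝ) → ℕ → ℝ := fun X t => ∑ j ∈ range R, (-1 : ℝ) ^ j * SJ c H j X t with hT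
  set U : (ℕ → ℝ) → ℕ → ℝ := SJ (fun _ => 1) H R with hU
  change |LL r Z N A P - N * MM Z P| ≤ _
  have hMU : MM Z U = TZ Z H (R + 1) := MM_SJ_one Z H R
  have hU1 : |LL r Z N A U - N * MM Z U|
      ≤ 2 * sgm (R + 2) M * N * TZ Z H (R + 1) + (H : ℝ) ^ (R + 1) * E :=
    SJ_transfer2 h1 r Z J H R R m M N A (fun _ => 1) hrZ hm hM hk hs le_rfl
      (fun _ => by norm_num)
  have hLU : LL r Z N A U ≤ N * MM Z U + (2 * sgm (R + 2) M * N * TZ Z H (R + 1)
      + (H : ℝ) ^ (R + 1) * E) := by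
    have := (abs_le.1 hU1).2
    linarith
  have hd1 : |LL r Z N A P - LL r Z N A T| ≤ LL r Z N A U := by
    rw [← LL_sub]
    exact LL_abs r Z N A _ _ fun X hX t => phi_bonf c hc H R X hX t
  have hd2 : |MM Z P - MM Z T| ≤ MM Z U := by
    rw [← MM_sub]
    exact MM_abs Z _ _ fun X hX t => phi_bonf c hc H R X hX t
  have hd3 : |LL r Z N A T - N * MM Z T| ≤
      2 * sgm (R + 2) M * N * (∑ j ∈ range R, TZ Z H (j + 1)) + R * ((H : ℝ) ^ (R + 1) * E) := by
    rw [hT, LL_sum r Z N A (range R) (fun j => (-1 : ℝ) ^ j) (fun j => SJ c H j),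
      MM_sum Z (range R) (fun j => (-1 : ℝ) ^ j) (fun j => SJ c H j), Finset.mul_sum,
      ← Finset.sum_sub_distrib]
    refine (Finset.abs_sum_le_sum_abs _ _).trans ?_
    calc _ ≤ ∑ j ∈ range R, (2 * sgm (R + 2) M * N * TZ Z H (j + 1)
          + (H : ℝ) ^ (R + 1) * E) := by
          refine Finset.sum_le_sum fun j hj => ?_
          rw [Finset.mem_range] at hj
          have e : (-1 : ℝ) ^ j * LL r Z N A (SJ c H j) - N * ((-1 : ℝ) ^ j * MM Z (SJ c H j))
              = (-1 : ℝ) ^ j * (LL r Z N A (SJ c H j) - N * MM Z (SJ c H j)) := by ring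
          rw [e, abs_mul, abs_pow, abs_neg, abs_one, one_pow, one_mul]
          refine (SJ_transfer2 h1 r Z J H R j m M N A c hrZ hm hM hk hs (by omega) hc).trans ?_
          have h9 : (H : ℝ) ^ (j + 1) * E ≤ (H : ℝ) ^ (R + 1) * E :=
            mul_le_mul_of_nonneg_right (pow_le_pow_right₀ hH1 (by omega)) hE0
          linarith
      _ = _ := by
          rw [Finset.sum_add_distrib, Finset.sum_const, Finset.card_range, nsmul_eq_mul,
            ← Finset.mul_sum]
  have hN : (0 : ℝ) ≤ N := Nat.cast_nonneg _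
  have hsum : LL r Z N A P - N * MM Z P = (LL r Z N A P - LL r Z N A T)
      + (LL r Z N A T - N * MM Z T) + -(N * (MM Z P - MM Z T)) := by ring
  rw [hsum]
  have h3 : |-(N * (MM Z P - MM Z T))| ≤ N * MM Z U := by
    rw [abs_neg, abs_mul, Nat.abs_cast]
    exact mul_le_mul_of_nonneg_left hd2 hN
  have h4 := abs_add_le ((LL r Z N A P - LL r Z N A T) + (LL r Z N A T - N * MM Z T))
    (-(N * (MM Z P - MM Z T)))
  have h5 := abs_add_le (LL r Z N A P - LL r Z N A T) (LL r Z N A T - N * MM Z T)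
  rw [hMU] at hLU h3
  rw [Finset.sum_range_succ]
  have h7 : ((R : ℝ) + 1) * (H : ℝ) ^ (R + 1) * E
      = R * ((H : ℝ) ^ (R + 1) * E) + (H : ℝ) ^ (R + 1) * E := by ring
  have h8 : 2 * sgm (R + 2) M * N * (∑ x ∈ range R, TZ Z H (x + 1) + TZ Z H (R + 1))
      = 2 * sgm (R + 2) M * N * (∑ x ∈ range R, TZ Z H (x + 1))
        + 2 * sgm (R + 2) M * N * TZ Z H (R + 1) := by ring
  rw [h7, h8]
  linarith

end Pool.Agent.Helper35.TB
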